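import Mathlib

open scoped ENNReal BigOperators

namespace Pool.Agent.Results.MP_55c50e_an.LpNotBuoComplete

/-- The real sequence space `ℓ_p` (Mathlib's `lp`), ordered coordinatewise. -/
abbrev Ell (p : ℝ≥0∞) : Type := lp (fun _ : ℕ => ℝ) p

/-- Order convergence of the sequence `d` to `d₀` in `ℓ_p`: there are a decreasing sequence `z`
of positive elements of `ℓ_p` with infimum `0` and indices `N_m` such that
`|d_k - d₀| ≤ z_m` for all `k ≥ N_m`. -/
def OrderTendsto {p : ℝ≥0∞} (d : ℕ → Ell p) (d₀ : Ell p) : Prop :=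
  ∃ z : ℕ → Ell p, (∀ m j, 0 ≤ z m j) ∧ (∀ m j, z (m + 1) j ≤ z m j) ∧
    (∀ u : Ell p, (∀ m j, u j ≤ z m j) → ∀ j, u j ≤ 0) ∧
    ∀ m, ∃ N, ∀ k, N ≤ k → ∀ j, |d k j - d₀ j| ≤ z m j

/-- `x` is Buo-Cauchy: for every strictly increasing sequence of indices `n`, the differences
`x_{n_{k+1}} - x_{n_k}` converge in order to `0`. -/
def BuoCauchy {p : ℝ≥0∞} (x : ℕ → Ell p) : Prop :=
  ∀ n : ℕ → ℕ, StrictMono n → OrderTendsto (fun k => x (n (k + 1)) - x (n k)) 0

/-- `x` Buo-converges to `x₀`: `|x_n - x₀| ∧ u` converges in order to `0` for every positive `u`,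
and the sequence is order bounded. -/
def BuoTendsto {p : ℝ≥0∞} (x : ℕ → Ell p) (x₀ : Ell p) : Prop :=
  (∀ u : Ell p, (∀ j, 0 ≤ u j) →
    ∃ d : ℕ → Ell p, (∀ n j, d n j = min |x n j - x₀ j| (u j)) ∧ OrderTendsto d 0) ∧
  ∃ y : Ell p, ∀ n j, |x n j| ≤ y j

/-! ### The weight -/

noncomputable def g (m : ℕ) : ℝ := 1 / (2 ^ (Nat.log 2 m) * ((Nat.log 2 m : ℝ) + 1) ^ 2)

lemma g_pos (m : ℕ) : 0 < g m := by unfold g; positivity

lemma g_anti {m n : ℕ} (h : m ≤ n) : g n ≤ g m := by
  unfold g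
  have h1 : Nat.log 2 m ≤ Nat.log 2 n := Nat.log_mono_right h
  have h2 : (Nat.log 2 m : ℝ) ≤ Nat.log 2 n := by exact_mod_cast h1
  apply one_div_le_one_div_of_le (by positivity)
  apply mul_le_mul _ _ (by positivity) (by positivity)
  · exact pow_le_pow_right₀ (by norm_num) h1
  · gcongr

lemma g_two_mul {a : ℕ} (ha : a ≠ 0) : g a / 8 ≤ g (2 * a) := by
  unfold g
  have h1 : Nat.log 2 (2 * a) = Nat.log 2 a + 1 := by
    rw [mul_comm]; exact Nat.log_mul_base (by norm_num) ha
  rw [h1, div_div]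
  apply one_div_le_one_div_of_le (by positivity)
  push_cast
  have : (0:ℝ) ≤ Nat.log 2 a := by positivity
  rw [pow_succ]
  have h2 : (0:ℝ) < 2 ^ Nat.log 2 a := by positivity
  nlinarith [mul_nonneg h2.le this, mul_nonneg h2.le (mul_nonneg this this)]

lemma summable_g : Summable g := by
  rw [← summable_condensed_iff_of_nonneg (fun n => (g_pos n).le) (fun m n _ h => g_anti h)]
  have : (fun k : ℕ => (2:ℝ) ^ k * g (2 ^ k)) = fun k : ℕ => 1 / (((k + 1 : ℕ) : ℝ)) ^ 2 := by
    funext k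
    unfold g
    rw [Nat.log_pow (by norm_num)]
    push_cast
    have : (0:ℝ) < 2 ^ k := by positivity
    field_simp
  rw [this]
  have h := (Real.summable_one_div_nat_pow (p := 2)).2 (by norm_num)
  exact (summable_nat_add_iff (f := fun n : ℕ => 1 / (n : ℝ) ^ 2) 1).2 h

lemma log_mul_two_pow {q : ℕ} (hq : q ≠ 0) (l : ℕ) :
    Nat.log 2 (q * 2 ^ l) = Nat.log 2 q + l := by
  induction l with
  | zero => simp
  | succ n ih =>
    rw [pow_succ, ← mul_assoc, Nat.log_mul_base (by norm_num) (by positivity), ih, add_assoc]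

/-- coordinate weights -/
noncomputable def c (l q : ℕ) : ℝ := if q = 0 ∨ l = 0 then 0 else 2 ^ l * g (q * 2 ^ l)

lemma c_nonneg (l q : ℕ) : 0 ≤ c l q := by
  unfold c; split_ifs
  · exact le_rfl
  · exact mul_nonneg (by positivity) (g_pos _).le

/-- the hat functions -/
noncomputable def T (l q n : ℕ) : ℝ := max 0 (1 - |2 * ((n : ℝ) / 2 ^ l - q) - 1|)

lemma T_nonneg (l q n : ℕ) : 0 ≤ T l q n := le_max_left _ _

lemma T_le_one (l q n : ℕ) : T l q n ≤ 1 := by
  unfold T
  apply max_le (by norm_num)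
  have := abs_nonneg (2 * ((n : ℝ) / 2 ^ l - q) - 1)
  linarith

lemma T_eq_zero {l q n : ℕ} (h : n / 2 ^ l ≠ q) : T l q n = 0 := by
  unfold T
  apply max_eq_left
  have hp : (0:ℝ) < 2 ^ l := by positivity
  rcases lt_or_gt_of_ne h with h | h
  · -- n / 2^l < q so n < q * 2^l
    have h1 : n < q * 2 ^ l := by
      rw [Nat.div_lt_iff_lt_mul (by positivity)] at h; exact h
    have h2 : (n:ℝ) < q * 2 ^ l := by exact_mod_cast h1
    have h3 : (n:ℝ) / 2 ^ l < q := by rw [div_lt_iff₀ hp]; exact h2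
    have := neg_abs_le (2 * ((n : ℝ) / 2 ^ l - q) - 1)
    linarith
  · have h1 : (q + 1) * 2 ^ l ≤ n := by
      have : q + 1 ≤ n / 2 ^ l := h
      rwa [Nat.le_div_iff_mul_le (by positivity)] at this
    have h2 : ((q:ℝ) + 1) * 2 ^ l ≤ n := by exact_mod_cast h1
    have h3 : (q:ℝ) + 1 ≤ (n:ℝ) / 2 ^ l := by rw [le_div_iff₀ hp]; exact h2
    have := le_abs_self (2 * ((n : ℝ) / 2 ^ l - q) - 1)
    linarith

lemma T_lip (l q : ℕ) {a b : ℕ} (h : a ≤ b) :
    |T l q b - T l q a| ≤ min 1 (2 * ((b : ℝ) - a) / 2 ^ l) := by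
  have hp : (0:ℝ) < 2 ^ l := by positivity
  apply le_min
  · rw [abs_le]
    constructor <;> linarith [T_nonneg l q a, T_nonneg l q b, T_le_one l q a, T_le_one l q b]
  · unfold T
    have h1 := abs_max_sub_max_le_abs (1 - |2 * ((b : ℝ) / 2 ^ l - q) - 1|)
      (1 - |2 * ((a : ℝ) / 2 ^ l - q) - 1|) 0
    rw [max_comm 0, max_comm 0]
    refine h1.trans ?_
    have h2 : (1 - |2 * ((b : ℝ) / 2 ^ l - q) - 1|) - (1 - |2 * ((a : ℝ) / 2 ^ l - q) - 1|)
      = |2 * ((a : ℝ) / 2 ^ l - q) - 1| - |2 * ((b : ℝ) / 2 ^ l - q) - 1| := by ring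
    rw [h2]
    refine (abs_abs_sub_abs_le_abs_sub _ _).trans ?_
    have h3 : 2 * ((a : ℝ) / 2 ^ l - q) - 1 - (2 * ((b : ℝ) / 2 ^ l - q) - 1)
      = - (2 * ((b : ℝ) - a) / 2 ^ l) := by field_simp; ring
    rw [h3, abs_neg, abs_of_nonneg]
    have : (a:ℝ) ≤ b := by exact_mod_cast h
    apply div_nonneg _ hp.le
    linarith

/-! ### Geometric sum -/

lemma geom_bound {r : ℝ} (hr : 1 < r) : ∃ C : ℝ, 0 < C ∧ ∀ (k : ℕ) (δ : ℝ), 1 ≤ δ →
    ∑ l ∈ Finset.range k, (2:ℝ) ^ l * (min 1 (δ / 2 ^ l)) ^ r ≤ C * δ := by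
  set ρ : ℝ := 2 ^ (-(r - 1)) with hρ
  have hρ0 : 0 < ρ := by rw [hρ]; positivity
  have hρ1 : ρ < 1 := by
    rw [hρ]; exact Real.rpow_lt_one_of_one_lt_of_neg (by norm_num) (by linarith)
  refine ⟨2 + 1 / (1 - ρ), by have : 0 < 1 - ρ := by linarith
                              positivity, ?_⟩
  intro k δ hδ
  -- prove a stronger pointwise bound by splitting
  have key : ∀ l : ℕ, (2:ℝ) ^ l * (min 1 (δ / 2 ^ l)) ^ r ≤
      (if (2:ℝ) ^ l ≤ δ then 2 ^ l else 0) +
      (if (2:ℝ) ^ l ≤ δ then 0 else δ * (δ / 2 ^ l) ^ (r - 1)) := by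
    intro l
    have hp : (0:ℝ) < 2 ^ l := by positivity
    split_ifs with h
    · have : (min 1 (δ / 2 ^ l)) ^ r ≤ 1 := by
        apply Real.rpow_le_one _ (min_le_left _ _) (by linarith)
        exact le_min zero_le_one (by positivity)
      nlinarith
    · push Not at h
      have h1 : min 1 (δ / 2 ^ l) = δ / 2 ^ l := by
        apply min_eq_right
        rw [div_le_one hp]; exact h.le
      rw [h1]
      have h2 : (δ / 2 ^ l) ^ r = (δ / 2 ^ l) * (δ / 2 ^ l) ^ (r - 1) := by
        rw [← Real.rpow_one_add' (by positivity) (by linarith)]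
        congr 1; ring
      rw [h2, zero_add]
      apply le_of_eq
      field_simp
  refine (Finset.sum_le_sum (fun l _ => key l)).trans ?_
  rw [Finset.sum_add_distrib, add_mul]
  apply add_le_add
  · -- sum of 2^l with 2^l ≤ δ
    have : ∀ k : ℕ, ∑ l ∈ Finset.range k, (if (2:ℝ) ^ l ≤ δ then (2:ℝ) ^ l else 0)
        ≤ min (2 ^ k) (2 * δ) := by
      intro k
      induction k with
      | zero => simp; linarith
      | succ n ih =>
        rw [Finset.sum_range_succ]
        have i1 := ih.trans (min_le_left _ _)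
        have i2 := ih.trans (min_le_right _ _)
        split_ifs with h
        · apply le_min
          · rw [pow_succ]; linarith
          · linarith
        · rw [add_zero]
          apply le_min _ i2
          refine i1.trans ?_
          exact pow_le_pow_right₀ (by norm_num) (Nat.le_succ n)
    exact (this k).trans (min_le_right _ _)
  · -- tail, by telescoping
    set t : ℕ → ℝ := fun l => (min 1 (δ / 2 ^ l)) ^ (r - 1) with ht
    have ht0 : ∀ l, 0 ≤ t l := fun l => by
      rw [ht]; apply Real.rpow_nonneg; exact le_min zero_le_one (by positivity)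
    have ht1 : ∀ l, t l ≤ 1 := fun l => by
      rw [ht]
      apply Real.rpow_le_one _ (min_le_left _ _) (by linarith)
      exact le_min zero_le_one (by positivity)
    have hstep : ∀ l : ℕ, (if (2:ℝ) ^ l ≤ δ then 0 else δ * (δ / 2 ^ l) ^ (r - 1)) ≤
        δ * (1 / (1 - ρ)) * (t l - t (l + 1)) := by
      intro l
      have hp : (0:ℝ) < 2 ^ l := by positivity
      have hρ2 : 0 < 1 - ρ := by linarith
      split_ifs with h
      · have h1 : t l = 1 := by
          rw [ht]
          simp only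
          rw [min_eq_left, Real.one_rpow]
          rw [le_div_iff₀ hp]; linarith
        rw [h1]
        have := ht1 (l + 1)
        have h3 : 0 ≤ 1 - t (l + 1) := by linarith
        positivity
      · push Not at h
        have h1 : t l = (δ / 2 ^ l) ^ (r - 1) := by
          rw [ht]
          simp only
          rw [min_eq_right]
          rw [div_le_one hp]; exact h.le
        have h2 : t (l + 1) = ρ * (δ / 2 ^ l) ^ (r - 1) := by
          rw [ht]
          simp only
          rw [min_eq_right]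
          · have e : δ / 2 ^ (l + 1) = 2⁻¹ * (δ / 2 ^ l) := by
              rw [pow_succ]; field_simp
            rw [e, Real.mul_rpow (by norm_num) (by positivity), hρ]
            congr 1
            rw [Real.inv_rpow (by norm_num), Real.rpow_neg (by norm_num)]
          · rw [div_le_one (by positivity), pow_succ]
            linarith
        rw [h1, h2]
        apply le_of_eq
        field_simp
    calc ∑ l ∈ Finset.range k, (if (2:ℝ) ^ l ≤ δ then 0 else δ * (δ / 2 ^ l) ^ (r - 1))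
        ≤ ∑ l ∈ Finset.range k, δ * (1 / (1 - ρ)) * (t l - t (l + 1)) :=
          Finset.sum_le_sum (fun l _ => hstep l)
      _ = δ * (1 / (1 - ρ)) * (t 0 - t k) := by
          rw [← Finset.mul_sum, Finset.sum_range_sub']
      _ ≤ 1 / (1 - ρ) * δ := by
          have hρ2 : 0 < 1 - ρ := by linarith
          have h1 := ht1 0
          have h2 := ht0 k
          have h3 : 0 < δ * (1 / (1 - ρ)) := by positivity
          nlinarith

/-- Level sums are at most `C * G(a,b)`. -/
lemma level_bound {r : ℝ} (hr : 1 < r) : ∃ K : ℝ, 0 < K ∧ ∀ (e a b N : ℕ), a < b → (e = a ∨ e = b) →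
    ∑ l ∈ Finset.range N, c l (e / 2 ^ l) * (min 1 (2 * ((b : ℝ) - a) / 2 ^ l)) ^ r
      ≤ K * ∑ m ∈ Finset.Ico a b, g m := by
  obtain ⟨C, hC, hgeom⟩ := geom_bound hr
  refine ⟨8 * (2 * C + 2), by positivity, ?_⟩
  intro e a b N hab he
  have hab' : (a:ℝ) + 1 ≤ b := by exact_mod_cast hab
  have hG : 0 ≤ ∑ m ∈ Finset.Ico a b, g m := Finset.sum_nonneg (fun m _ => (g_pos m).le)
  have hm0 : ∀ l : ℕ, 0 ≤ (min 1 (2 * ((b : ℝ) - a) / 2 ^ l)) ^ r := by
    intro l
    apply Real.rpow_nonneg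
    apply le_min zero_le_one
    apply div_nonneg _ (by positivity)
    linarith
  have hm1 : ∀ l : ℕ, (min 1 (2 * ((b : ℝ) - a) / 2 ^ l)) ^ r ≤ 1 := by
    intro l
    apply Real.rpow_le_one _ (min_le_left _ _) (by linarith)
    apply le_min zero_le_one
    apply div_nonneg _ (by positivity)
    linarith
  by_cases he0 : e = 0
  · have : ∀ l ∈ Finset.range N, c l (e / 2 ^ l) * (min 1 (2 * ((b : ℝ) - a) / 2 ^ l)) ^ r = 0 := by
      intro l _
      have : e / 2 ^ l = 0 := by rw [he0]; simp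
      rw [this]; simp [c]
    rw [Finset.sum_eq_zero this]
    positivity
  -- bound by g e * 2^l * m_l^r for l ≤ log2 e
  have hterm : ∀ l : ℕ, c l (e / 2 ^ l) * (min 1 (2 * ((b : ℝ) - a) / 2 ^ l)) ^ r ≤
      if l ∈ Finset.range (Nat.log 2 e + 1) then
        g e * (2 ^ l * (min 1 (2 * ((b : ℝ) - a) / 2 ^ l)) ^ r) else 0 := by
    intro l
    unfold c
    split_ifs with h1 h2 h2
    · rw [zero_mul]
      exact mul_nonneg (g_pos e).le (mul_nonneg (by positivity) (hm0 l))
    · simp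
    · push Not at h1
      replace h1 := h1.1
      apply le_of_eq
      have h3 : Nat.log 2 (e / 2 ^ l * 2 ^ l) = Nat.log 2 e := by
        rw [log_mul_two_pow h1]
        have : Nat.log 2 (e / 2 ^ l) = Nat.log 2 e - l := by
          rw [Nat.log_div_base_pow]
        rw [this]
        have := Finset.mem_range.1 h2
        omega
      have h4 : g (e / 2 ^ l * 2 ^ l) = g e := by unfold g; rw [h3]
      rw [h4]; ring
    · exfalso
      apply h2
      rw [Finset.mem_range]
      by_contra h5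
      push Not at h5
      apply h1
      left
      apply Nat.div_eq_of_lt
      calc e < 2 ^ (Nat.log 2 e + 1) := Nat.lt_pow_succ_log_self (by norm_num) e
        _ ≤ 2 ^ l := Nat.pow_le_pow_right (by norm_num) h5
  have hsum : ∑ l ∈ Finset.range N, c l (e / 2 ^ l) * (min 1 (2 * ((b : ℝ) - a) / 2 ^ l)) ^ r ≤
      g e * ∑ l ∈ Finset.range (Nat.log 2 e + 1),
        2 ^ l * (min 1 (2 * ((b : ℝ) - a) / 2 ^ l)) ^ r := by
    refine (Finset.sum_le_sum (fun l _ => hterm l)).trans ?_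
    rw [Finset.mul_sum, ← Finset.sum_filter]
    apply Finset.sum_le_sum_of_subset_of_nonneg
    · intro l hl
      exact (Finset.mem_filter.1 hl).2
    · intro l _ _
      exact mul_nonneg (g_pos e).le (mul_nonneg (by positivity) (hm0 l))
  have hA : ∑ l ∈ Finset.range (Nat.log 2 e + 1),
        (2:ℝ) ^ l * (min 1 (2 * ((b : ℝ) - a) / 2 ^ l)) ^ r ≤ 2 * C * ((b:ℝ) - a) := by
    have := hgeom (Nat.log 2 e + 1) (2 * ((b:ℝ) - a)) (by linarith)
    linarith
  have hB : ∑ l ∈ Finset.range (Nat.log 2 e + 1),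
        (2:ℝ) ^ l * (min 1 (2 * ((b : ℝ) - a) / 2 ^ l)) ^ r ≤ 2 * e := by
    calc ∑ l ∈ Finset.range (Nat.log 2 e + 1), (2:ℝ) ^ l * (min 1 (2 * ((b : ℝ) - a) / 2 ^ l)) ^ r
        ≤ ∑ l ∈ Finset.range (Nat.log 2 e + 1), (2:ℝ) ^ l := by
          apply Finset.sum_le_sum
          intro l _
          have : (0:ℝ) < 2 ^ l := by positivity
          have := hm1 l
          nlinarith
      _ ≤ 2 ^ (Nat.log 2 e + 1) := by
          have : ∀ n : ℕ, ∑ l ∈ Finset.range n, (2:ℝ) ^ l ≤ 2 ^ n := by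
            intro n
            induction n with
            | zero => simp
            | succ n ih => rw [Finset.sum_range_succ, pow_succ]; linarith
          exact this _
      _ = 2 * 2 ^ (Nat.log 2 e) := by rw [pow_succ]; ring
      _ ≤ 2 * e := by
          have : 2 ^ (Nat.log 2 e) ≤ e := Nat.pow_log_le_self 2 he0
          have : (2:ℝ) ^ (Nat.log 2 e) ≤ e := by exact_mod_cast this
          linarith
  refine hsum.trans ?_
  have hge := g_pos e
  rcases he with he | he
  · subst he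
    -- lower bound of G
    have hlow : (min ((b:ℝ) - e) e) * (g e / 8) ≤ ∑ m ∈ Finset.Ico e b, g m := by
      have h1 : ∑ m ∈ Finset.Ico e (min b (2 * e)), g m ≤ ∑ m ∈ Finset.Ico e b, g m := by
        apply Finset.sum_le_sum_of_subset_of_nonneg
        · intro m hm
          rw [Finset.mem_Ico] at hm ⊢
          exact ⟨hm.1, lt_of_lt_of_le hm.2 (min_le_left _ _)⟩
        · intro m _ _; exact (g_pos m).le
      refine le_trans ?_ h1
      have h2 : ∀ m ∈ Finset.Ico e (min b (2 * e)), g e / 8 ≤ g m := by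
        intro m hm
        rw [Finset.mem_Ico] at hm
        exact (g_two_mul he0).trans (g_anti (le_of_lt (lt_of_lt_of_le hm.2 (min_le_right _ _))))
      have h3 := Finset.card_nsmul_le_sum _ _ _ h2
      refine le_trans (le_of_eq ?_) h3
      rw [nsmul_eq_mul, Nat.card_Ico]
      congr 1
      rcases le_total b (2 * e) with h | h
      · rw [min_eq_left h, Nat.cast_sub hab.le]
        apply min_eq_left
        have : (b:ℝ) ≤ 2 * e := by exact_mod_cast h
        linarith
      · rw [min_eq_right h]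
        have : 2 * e - e = e := by omega
        rw [this]
        apply min_eq_right
        have : (2:ℝ) * e ≤ b := by exact_mod_cast h
        linarith
    have h4 : g e * ∑ l ∈ Finset.range (Nat.log 2 e + 1),
        (2:ℝ) ^ l * (min 1 (2 * ((b : ℝ) - e) / 2 ^ l)) ^ r
        ≤ g e * ((2 * C + 2) * min ((b:ℝ) - e) e) := by
      apply mul_le_mul_of_nonneg_left _ hge.le
      have h5 : (0:ℝ) ≤ e := by positivity
      have h6 : (0:ℝ) ≤ (b:ℝ) - e := by linarith
      rcases le_total ((b:ℝ) - e) e with h | h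
      · rw [min_eq_left h]
        refine hA.trans ?_
        nlinarith
      · rw [min_eq_right h]
        refine hB.trans ?_
        nlinarith
    refine h4.trans ?_
    have : g e * ((2 * C + 2) * min ((b:ℝ) - e) e)
      = 8 * (2 * C + 2) * (min ((b:ℝ) - e) e * (g e / 8)) := by ring
    rw [this]
    exact mul_le_mul_of_nonneg_left hlow (by positivity)
  · subst he
    have hlow : ((e:ℝ) - a) * g e ≤ ∑ m ∈ Finset.Ico a e, g m := by
      have h2 : ∀ m ∈ Finset.Ico a e, g e ≤ g m := by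
        intro m hm
        rw [Finset.mem_Ico] at hm
        exact g_anti hm.2.le
      have h3 := Finset.card_nsmul_le_sum _ _ _ h2
      refine le_trans (le_of_eq ?_) h3
      rw [nsmul_eq_mul, Nat.card_Ico, Nat.cast_sub hab.le]
    calc g e * ∑ l ∈ Finset.range (Nat.log 2 e + 1),
        (2:ℝ) ^ l * (min 1 (2 * ((e : ℝ) - a) / 2 ^ l)) ^ r
        ≤ g e * (2 * C * ((e:ℝ) - a)) := mul_le_mul_of_nonneg_left hA hge.le
      _ = 2 * C * (((e:ℝ) - a) * g e) := by ring
      _ ≤ 2 * C * ∑ m ∈ Finset.Ico a e, g m := mul_le_mul_of_nonneg_left hlow (by positivity)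
      _ ≤ 8 * (2 * C + 2) * ∑ m ∈ Finset.Ico a e, g m := by
          apply mul_le_mul_of_nonneg_right _ hG
          linarith

/-! ### The sequence -/

/-- The value of the `n`-th element at coordinate `(l, q)`. -/
noncomputable def X (r : ℝ) (n l q : ℕ) : ℝ := (c l q) ^ (1 / r) * T l q n

lemma abs_X_sub_rpow {r : ℝ} (hr : 1 < r) (a b l q : ℕ) :
    |X r b l q - X r a l q| ^ r = c l q * |T l q b - T l q a| ^ r := by
  unfold X
  rw [← mul_sub, abs_mul, Real.mul_rpow (abs_nonneg _) (abs_nonneg _)]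
  congr 1
  rw [abs_of_nonneg (Real.rpow_nonneg (c_nonneg _ _) _), ← Real.rpow_mul (c_nonneg _ _),
    one_div_mul_cancel (by linarith), Real.rpow_one]

/-- Sum over a rectangle of coordinates of the `r`-th powers of the differences. -/
lemma diff_bound {r : ℝ} (hr : 1 < r) : ∃ K : ℝ, 0 < K ∧ ∀ (a b N : ℕ), a < b →
    ∑ x ∈ Finset.range N ×ˢ Finset.range N, |X r b x.1 x.2 - X r a x.1 x.2| ^ r
      ≤ K * ∑ m ∈ Finset.Ico a b, g m := by
  obtain ⟨K, hK, hlev⟩ := level_bound hr
  refine ⟨2 * K, by positivity, ?_⟩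
  intro a b N hab
  have hab' : (a:ℝ) + 1 ≤ b := by exact_mod_cast hab
  set M : ℕ → ℝ := fun l => (min 1 (2 * ((b : ℝ) - a) / 2 ^ l)) ^ r with hM
  have hm0 : ∀ l : ℕ, 0 ≤ M l := by
    intro l
    apply Real.rpow_nonneg
    apply le_min zero_le_one
    apply div_nonneg _ (by positivity)
    linarith
  have hpt : ∀ l q : ℕ, |X r b l q - X r a l q| ^ r ≤
      (if a / 2 ^ l = q then c l q * M l else 0) + (if b / 2 ^ l = q then c l q * M l else 0) := by
    intro l q
    rw [abs_X_sub_rpow hr]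
    have hT : |T l q b - T l q a| ^ r ≤ M l := by
      apply Real.rpow_le_rpow (abs_nonneg _) (T_lip l q hab.le) (by linarith)
    have hc := c_nonneg l q
    have hcM := mul_nonneg hc (hm0 l)
    have h1 : c l q * |T l q b - T l q a| ^ r ≤ c l q * M l := mul_le_mul_of_nonneg_left hT hc
    split_ifs with h2 h3 h3
    · linarith
    · linarith
    · linarith
    · rw [T_eq_zero h2, T_eq_zero h3]
      simp [Real.zero_rpow (show r ≠ 0 by linarith)]
  refine (Finset.sum_le_sum (fun x _ => hpt x.1 x.2)).trans ?_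
  rw [Finset.sum_add_distrib, two_mul, add_mul]
  have main : ∀ e : ℕ, (e = a ∨ e = b) →
      ∑ x ∈ Finset.range N ×ˢ Finset.range N, (if e / 2 ^ x.1 = x.2 then c x.1 x.2 * M x.1 else 0)
      ≤ K * ∑ m ∈ Finset.Ico a b, g m := by
    intro e he
    rw [Finset.sum_product]
    refine le_trans ?_ (hlev e a b N hab he)
    apply Finset.sum_le_sum
    intro l _
    simp only
    rw [Finset.sum_ite_eq]
    split_ifs
    · exact le_rfl
    · exact mul_nonneg (c_nonneg _ _) (hm0 l)
  exact add_le_add (main a (Or.inl rfl)) (main b (Or.inr rfl))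

/-- The coordinates are enumerated by `ℕ` through `Nat.unpair`. -/
noncomputable def Y (r : ℝ) (n j : ℕ) : ℝ := X r n (Nat.unpair j).1 (Nat.unpair j).2

/-- From some index on, coordinate `j` of the sequence vanishes. -/
def cut (j : ℕ) : ℕ := ((Nat.unpair j).2 + 1) * 2 ^ (Nat.unpair j).1

lemma Y_eq_zero (r : ℝ) {n j : ℕ} (h : cut j ≤ n) : Y r n j = 0 := by
  unfold Y X
  rw [T_eq_zero, mul_zero]
  unfold cut at h
  rw [← Nat.le_div_iff_mul_le (by positivity)] at h
  omega

lemma sum_le_rect (F : ℕ → ℕ → ℝ) (hF : ∀ l q, 0 ≤ F l q) (s : Finset ℕ) :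
    ∃ N, ∑ j ∈ s, F (Nat.unpair j).1 (Nat.unpair j).2
      ≤ ∑ x ∈ Finset.range N ×ˢ Finset.range N, F x.1 x.2 := by
  obtain ⟨N, hN⟩ := s.exists_nat_subset_range
  refine ⟨N, ?_⟩
  have hinj : Set.InjOn Nat.unpair (s : Set ℕ) := by
    intro a _ b _ h
    have := congrArg (fun x => Nat.pair x.1 x.2) h
    simpa using this
  rw [← Finset.sum_image (f := fun x : ℕ × ℕ => F x.1 x.2) (g := Nat.unpair) hinj]
  apply Finset.sum_le_sum_of_subset_of_nonneg
  · intro x hx
    rw [Finset.mem_image] at hx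
    obtain ⟨j, hj, rfl⟩ := hx
    have hj' := Finset.mem_range.1 (hN hj)
    rw [Finset.mem_product, Finset.mem_range, Finset.mem_range]
    exact ⟨lt_of_le_of_lt (Nat.unpair_left_le j) hj', lt_of_le_of_lt (Nat.unpair_right_le j) hj'⟩
  · intro x _ _
    exact hF _ _

/-- Total variation bound along an arbitrary increasing sequence. -/
lemma var_bound {r : ℝ} (hr : 1 < r) : ∃ B : ℝ, 0 ≤ B ∧ ∀ (n : ℕ → ℕ), StrictMono n →
    ∀ (s : Finset ℕ) (I : ℕ),
    ∑ j ∈ s, ∑ i ∈ Finset.range I, |Y r (n (i + 1)) j - Y r (n i) j| ^ r ≤ B := by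
  obtain ⟨K, hK, hd⟩ := diff_bound hr
  refine ⟨K * ∑' m, g m, mul_nonneg hK.le (tsum_nonneg (fun m => (g_pos m).le)), ?_⟩
  intro n hn s I
  obtain ⟨N, hN⟩ := sum_le_rect
    (fun l q => ∑ i ∈ Finset.range I, |X r (n (i + 1)) l q - X r (n i) l q| ^ r)
    (fun l q => Finset.sum_nonneg (fun i _ => Real.rpow_nonneg (abs_nonneg _) _)) s
  refine hN.trans ?_
  rw [Finset.sum_comm]
  have h1 : ∀ i ∈ Finset.range I, ∑ x ∈ Finset.range N ×ˢ Finset.range N,
      |X r (n (i + 1)) x.1 x.2 - X r (n i) x.1 x.2| ^ r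
      ≤ K * ∑ m ∈ Finset.Ico (n i) (n (i + 1)), g m :=
    fun i _ => hd _ _ N (hn (Nat.lt_succ_self i))
  refine (Finset.sum_le_sum h1).trans ?_
  rw [← Finset.mul_sum]
  apply mul_le_mul_of_nonneg_left _ hK.le
  have h2 : ∀ I : ℕ, ∑ i ∈ Finset.range I, ∑ m ∈ Finset.Ico (n i) (n (i + 1)), g m
      = ∑ m ∈ Finset.Ico (n 0) (n I), g m := by
    intro I
    induction I with
    | zero => simp
    | succ k ih =>
      rw [Finset.sum_range_succ, ih]
      exact Finset.sum_Ico_consecutive _ (hn.monotone (Nat.zero_le k)) (hn (Nat.lt_succ_self k)).le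
  rw [h2]
  exact summable_g.sum_le_tsum _ (fun m _ => (g_pos m).le)

lemma memlp_Y {p : ℝ≥0∞} (hr : 1 < p.toReal) (n : ℕ) :
    Memℓp (fun j => Y p.toReal n j) p := by
  obtain ⟨B, _, hB⟩ := var_bound hr
  apply memℓp_gen' (C := B)
  intro s
  set n1 : ℕ := n + 1 + ∑ j ∈ s, cut j with hn1
  set a : ℕ → ℕ := fun i => if i = 0 then n else n1 + i with ha
  have hmono : StrictMono a := by
    apply strictMono_nat_of_lt_succ
    intro i
    rcases Nat.eq_zero_or_pos i with h | h
    · subst h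
      simp only [ha, if_true, hn1]
      rw [if_neg (by norm_num)]
      omega
    · simp only [ha]
      rw [if_neg (by omega), if_neg (by omega)]
      omega
  refine le_trans ?_ (hB a hmono s 1)
  apply Finset.sum_le_sum
  intro j hj
  rw [Finset.sum_range_one]
  have h1 : Y p.toReal (a (0 + 1)) j = 0 := by
    apply Y_eq_zero
    have : cut j ≤ ∑ j ∈ s, cut j := Finset.single_le_sum (fun i _ => Nat.zero_le _) hj
    simp only [ha]
    rw [if_neg (by norm_num)]
    omega
  have h2 : a 0 = n := by simp [ha]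
  rw [h1, h2, zero_sub, abs_neg, Real.norm_eq_abs]

/-- The counterexample sequence. -/
noncomputable def xs {p : ℝ≥0∞} (hr : 1 < p.toReal) (n : ℕ) : Ell p :=
  ⟨fun j => Y p.toReal n j, memlp_Y hr n⟩

lemma xs_apply {p : ℝ≥0∞} (hr : 1 < p.toReal) (n j : ℕ) : xs hr n j = Y p.toReal n j := rfl

lemma buoCauchy_xs {p : ℝ≥0∞} (hr : 1 < p.toReal) : BuoCauchy (xs hr) := by
  obtain ⟨B, _, hB⟩ := var_bound hr
  have hr0 : 0 < p.toReal := by linarith
  intro n hn
  set S : ℕ → ℝ := fun j =>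
    ∑ i ∈ Finset.range (cut j), |Y p.toReal (n (i + 1)) j - Y p.toReal (n i) j| ^ p.toReal with hS
  have hS0 : ∀ j, 0 ≤ S j := fun j =>
    Finset.sum_nonneg (fun i _ => Real.rpow_nonneg (abs_nonneg _) _)
  set y : ℕ → ℝ := fun j => (S j) ^ (1 / p.toReal) with hy
  have hy0 : ∀ j, 0 ≤ y j := fun j => Real.rpow_nonneg (hS0 j) _
  have hymem : Memℓp y p := by
    apply memℓp_gen' (C := B)
    intro s
    have h1 : ∀ j ∈ s, ‖y j‖ ^ p.toReal ≤ ∑ i ∈ Finset.range (∑ j ∈ s, cut j),
        |Y p.toReal (n (i + 1)) j - Y p.toReal (n i) j| ^ p.toReal := by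
      intro j hj
      rw [Real.norm_eq_abs, abs_of_nonneg (hy0 j), hy]
      simp only
      rw [← Real.rpow_mul (hS0 j), one_div_mul_cancel hr0.ne', Real.rpow_one, hS]
      apply Finset.sum_le_sum_of_subset_of_nonneg
      · intro i hi
        rw [Finset.mem_range] at hi ⊢
        exact lt_of_lt_of_le hi (Finset.single_le_sum (f := cut) (fun i _ => Nat.zero_le _) hj)
      · intro i _ _
        exact Real.rpow_nonneg (abs_nonneg _) _
    exact (Finset.sum_le_sum h1).trans (hB n hn s _)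
  have hd0 : ∀ k j, cut j ≤ k → Y p.toReal (n (k + 1)) j - Y p.toReal (n k) j = 0 := by
    intro k j h
    have h1 : k ≤ n k := hn.id_le k
    have h2 : n k < n (k + 1) := hn (Nat.lt_succ_self k)
    rw [Y_eq_zero _ (show cut j ≤ n (k + 1) by omega), Y_eq_zero _ (show cut j ≤ n k by omega),
      sub_zero]
  have hdy : ∀ k j, |Y p.toReal (n (k + 1)) j - Y p.toReal (n k) j| ≤ y j := by
    intro k j
    by_cases h : cut j ≤ k
    · rw [hd0 k j h, abs_zero]; exact hy0 j
    · push Not at h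
      have h1 : |Y p.toReal (n (k + 1)) j - Y p.toReal (n k) j| ^ p.toReal ≤ S j :=
        Finset.single_le_sum
          (f := fun i => |Y p.toReal (n (i + 1)) j - Y p.toReal (n i) j| ^ p.toReal)
          (fun i _ => Real.rpow_nonneg (abs_nonneg _) _) (Finset.mem_range.2 h)
      have h2 := Real.rpow_le_rpow (Real.rpow_nonneg (abs_nonneg _) _) h1
        (show 0 ≤ 1 / p.toReal by positivity)
      rw [← Real.rpow_mul (abs_nonneg _), mul_one_div_cancel hr0.ne', Real.rpow_one] at h2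
      exact h2
  have hzmem : ∀ m : ℕ, Memℓp (fun j => if cut j ≤ m then 0 else y j) p := by
    intro m
    apply hymem.mono
    intro j
    split_ifs
    · simpa using hy0 j
    · rw [Real.norm_eq_abs, abs_of_nonneg (hy0 j)]
  refine ⟨fun m => ⟨fun j => if cut j ≤ m then 0 else y j, hzmem m⟩, ?_, ?_, ?_, ?_⟩
  · intro m j
    change 0 ≤ if cut j ≤ m then 0 else y j
    split_ifs
    · exact le_rfl
    · exact hy0 j
  · intro m j
    change (if cut j ≤ m + 1 then 0 else y j) ≤ if cut j ≤ m then 0 else y j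
    split_ifs with h1 h2 h2
    · exact le_rfl
    · exact hy0 j
    · omega
    · exact le_rfl
  · intro u hu j
    have := hu (cut j) j
    change u j ≤ if cut j ≤ cut j then 0 else y j at this
    simpa using this
  · intro m
    refine ⟨m, ?_⟩
    intro k hk j
    change |(Y p.toReal (n (k + 1)) j - Y p.toReal (n k) j) - 0| ≤ if cut j ≤ m then 0 else y j
    rw [sub_zero]
    split_ifs with h
    · rw [hd0 k j (h.trans hk), abs_zero]
    · exact hdy k j

/-! ### The sequence is not order bounded -/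

lemma sum_inv_log (l : ℕ) :
    ∑ q ∈ Finset.Ico 1 (2 ^ l), (1 : ℝ) / 2 ^ (Nat.log 2 q) = l := by
  induction l with
  | zero => simp
  | succ n ih =>
    rw [← Finset.sum_Ico_consecutive _ (Nat.one_le_two_pow (n := n))
      (Nat.pow_le_pow_right (by norm_num) (Nat.le_succ n)), ih]
    have : ∀ q ∈ Finset.Ico (2 ^ n) (2 ^ (n + 1)), (1 : ℝ) / 2 ^ (Nat.log 2 q) = 1 / 2 ^ n := by
      intro q hq
      rw [Finset.mem_Ico] at hq
      rw [Nat.log_eq_of_pow_le_of_lt_pow hq.1 hq.2]
    rw [Finset.sum_congr rfl this, Finset.sum_const, Nat.card_Ico, nsmul_eq_mul]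
    have h2 : 2 ^ (n + 1) - 2 ^ n = 2 ^ n := by rw [pow_succ]; omega
    rw [h2]
    push_cast
    have : (0:ℝ) < 2 ^ n := by positivity
    field_simp

lemma c_lower {l q : ℕ} (hq : q ∈ Finset.Ico 1 (2 ^ l)) :
    1 / (4 * (l:ℝ) ^ 2) * (1 / 2 ^ (Nat.log 2 q)) ≤ c l q := by
  rw [Finset.mem_Ico] at hq
  have hq0 : q ≠ 0 := by omega
  have hl : Nat.log 2 q < l := Nat.log_lt_of_lt_pow hq0 hq.2
  have hl' : (Nat.log 2 q : ℝ) + 1 ≤ l := by exact_mod_cast hl
  have hn : (0:ℝ) ≤ Nat.log 2 q := by positivity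
  unfold c
  have hl0 : l ≠ 0 := by rintro rfl; simp at hl
  rw [if_neg (by push Not; exact ⟨hq0, hl0⟩)]
  unfold g
  rw [log_mul_two_pow hq0, pow_add]
  push_cast
  have h1 : (0:ℝ) < 2 ^ l := by positivity
  have h2 : (0:ℝ) < 2 ^ Nat.log 2 q := by positivity
  have h3 : (2:ℝ) ^ l * (1 / (2 ^ Nat.log 2 q * 2 ^ l * ((Nat.log 2 q : ℝ) + l + 1) ^ 2))
      = 1 / (2 ^ Nat.log 2 q * ((Nat.log 2 q : ℝ) + l + 1) ^ 2) := by
    field_simp
  rw [h3, one_div_mul_one_div]
  apply one_div_le_one_div_of_le (by positivity)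
  have h4 : ((Nat.log 2 q : ℝ) + l + 1) ^ 2 ≤ 4 * (l:ℝ) ^ 2 := by nlinarith
  nlinarith

lemma not_summable_c : ¬ Summable (fun j : ℕ => c (Nat.unpair j).1 (Nat.unpair j).2) := by
  intro h
  have h1 : Summable (fun x : ℕ × ℕ => c x.1 x.2) := by
    rw [← Nat.pairEquiv.symm.summable_iff]
    exact h
  have h2 : Summable (fun l : ℕ => ∑' q, c l q) := h1.prod
  have h3 : ∀ l : ℕ, 1 / (4 * (l:ℝ)) ≤ ∑' q, c l q := by
    intro l
    rcases Nat.eq_zero_or_pos l with rfl | hl
    · simp only [Nat.cast_zero, mul_zero, div_zero]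
      exact tsum_nonneg (fun q => c_nonneg _ _)
    · have hl' : (0:ℝ) < l := by exact_mod_cast hl
      have h4 : ∑ q ∈ Finset.Ico 1 (2 ^ l), c l q ≤ ∑' q, c l q :=
        (h1.prod_factor l).sum_le_tsum _ (fun q _ => c_nonneg _ _)
      refine le_trans ?_ h4
      refine le_trans ?_ (Finset.sum_le_sum (fun q hq => c_lower hq))
      rw [← Finset.mul_sum, sum_inv_log]
      apply le_of_eq
      field_simp
  have h5 : Summable (fun l : ℕ => 1 / (4 * (l:ℝ))) :=
    Summable.of_nonneg_of_le (fun l => by positivity) h3 h2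
  have h6 : Summable (fun l : ℕ => 1 / (l:ℝ)) := by
    have := h5.mul_left 4
    refine this.congr (fun l => ?_)
    rcases Nat.eq_zero_or_pos l with rfl | hl
    · simp
    · field_simp
  exact Real.not_summable_one_div_natCast h6

lemma not_bounded_xs {p : ℝ≥0∞} (hr : 1 < p.toReal) :
    ¬ ∃ y : Ell p, ∀ n j, |xs hr n j| ≤ y j := by
  rintro ⟨y, hy⟩
  have hr0 : 0 < p.toReal := by linarith
  apply not_summable_c
  have hs := (lp.memℓp y).summable hr0
  refine Summable.of_nonneg_of_le (fun j => c_nonneg _ _) ?_ hs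
  intro j
  have hy0 : 0 ≤ y j := (abs_nonneg _).trans (hy 0 j)
  rw [Real.norm_eq_abs, abs_of_nonneg hy0]
  rcases Nat.eq_zero_or_pos (Nat.unpair j).1 with h0 | h0
  · have : c (Nat.unpair j).1 (Nat.unpair j).2 = 0 := by unfold c; rw [if_pos (Or.inr h0)]
    rw [this]
    exact Real.rpow_nonneg hy0 _
  · obtain ⟨k, hk⟩ : ∃ k, (Nat.unpair j).1 = k + 1 := ⟨(Nat.unpair j).1 - 1, by omega⟩
    have h1 := hy ((Nat.unpair j).2 * 2 ^ (k + 1) + 2 ^ k) j
    rw [xs_apply] at h1
    unfold Y X at h1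
    rw [hk] at h1 ⊢
    have hT : T (k + 1) (Nat.unpair j).2 ((Nat.unpair j).2 * 2 ^ (k + 1) + 2 ^ k) = 1 := by
      unfold T
      push_cast
      have h2 : (0:ℝ) < 2 ^ k := by positivity
      have h3 : (2:ℝ) * ((((Nat.unpair j).2 : ℝ) * 2 ^ (k + 1) + 2 ^ k) / 2 ^ (k + 1)
          - (Nat.unpair j).2) - 1 = 0 := by
        rw [pow_succ]
        field_simp
        ring
      rw [h3]
      simp
    rw [hT, mul_one, abs_of_nonneg (Real.rpow_nonneg (c_nonneg _ _) _)] at h1
    have h4 := Real.rpow_le_rpow (Real.rpow_nonneg (c_nonneg _ _) _) h1 hr0.le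
    rw [← Real.rpow_mul (c_nonneg _ _), one_div_mul_cancel hr0.ne', Real.rpow_one] at h4
    exact h4

/-- A sequence converging in order is order bounded. -/
lemma bounded_of_orderTendsto {p : ℝ≥0∞} {x : ℕ → Ell p} {x₀ : Ell p}
    (h : OrderTendsto x x₀) : ∃ y : Ell p, ∀ n j, |x n j| ≤ y j := by
  obtain ⟨z, hz0, _, _, hz⟩ := h
  obtain ⟨N, hN⟩ := hz 0
  have hmem : Memℓp (fun j => (∑ k ∈ Finset.range N, |x k j|) + (|x₀ j| + z 0 j)) p := by
    have h1 : Memℓp (fun j => ∑ k ∈ Finset.range N, |x k j|) p := by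
      have := Memℓp.finsetSum (p := p) (E := fun _ : ℕ => ℝ) (Finset.range N)
        (f := fun k j => |x k j|) (fun k _ => (lp.memℓp (x k)).norm)
      exact this
    have h2 : Memℓp (fun j => |x₀ j| + z 0 j) p :=
      (lp.memℓp x₀).norm.add (lp.memℓp (z 0))
    exact h1.add h2
  refine ⟨⟨_, hmem⟩, ?_⟩
  intro n j
  change |x n j| ≤ (∑ k ∈ Finset.range N, |x k j|) + (|x₀ j| + z 0 j)
  have hs : 0 ≤ ∑ k ∈ Finset.range N, |x k j| := Finset.sum_nonneg (fun k _ => abs_nonneg _)
  by_cases h : n < N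
  · have h1 : |x n j| ≤ ∑ k ∈ Finset.range N, |x k j| :=
      Finset.single_le_sum (f := fun k => |x k j|) (fun k _ => abs_nonneg _) (Finset.mem_range.2 h)
    have h2 := abs_nonneg (x₀ j)
    have h3 := hz0 0 j
    linarith
  · push Not at h
    have h1 := hN n h j
    have h2 : |x n j| ≤ |x₀ j| + |x n j - x₀ j| := by
      have := abs_add_le (x₀ j) (x n j - x₀ j)
      simpa using this
    linarith

/-- For every `1 < p < ∞` there is a Buo-Cauchy sequence in `ℓ_p` which has no order limit and no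
Buo-limit in `ℓ_p`: the space `ℓ_p` is not sequentially Buo-complete. -/
theorem result (p : ℝ≥0∞) (hp1 : 1 < p) (hp2 : p < ∞) :
    ∃ x : ℕ → Ell p, BuoCauchy x ∧ (¬ ∃ x₀ : Ell p, OrderTendsto x x₀) ∧
      (¬ ∃ x₀ : Ell p, BuoTendsto x x₀) := by
  have hr : 1 < p.toReal := by
    rw [← ENNReal.toReal_one]
    exact (ENNReal.toReal_lt_toReal (by norm_num) hp2.ne).2 hp1
  refine ⟨xs hr, buoCauchy_xs hr, ?_, ?_⟩
  · rintro ⟨x₀, hx⟩
    exact not_bounded_xs hr (bounded_of_orderTendsto hx)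
  · rintro ⟨x₀, _, hx⟩
    exact not_bounded_xs hr hx

end Pool.Agent.Results.MP_55c50e_an.LpNotBuoComplete
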